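import Pool.Agent.H80.HS.Targets

/-! # Gradient on the x-slices -/

namespace Pool.Agent.H69.HS.S3

open MeasureTheory Set Pool.Agent.H80.HS
open scoped ContDiff ENNReal

theorem norm_clm {n : ℕ} (L : V n →L[ℝ] ℝ) :
    ‖L‖ = Real.sqrt (∑ j, ‖L (EuclideanSpace.single j (1 : ℝ))‖ ^ 2) := by
  set v : V n := (InnerProductSpace.toDual ℝ (V n)).symm L with hv
  have h1 : ‖L‖ = ‖v‖ := by
    rw [hv, LinearIsometryEquiv.norm_map]
  have h2 : ∀ j, L (EuclideanSpace.single j (1 : ℝ)) = v j := by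
    intro j
    have h3 : inner ℝ v (EuclideanSpace.single j (1 : ℝ)) = L (EuclideanSpace.single j (1 : ℝ)) := by
      rw [hv, InnerProductSpace.toDual_symm_apply]
    rw [← h3, EuclideanSpace.inner_single_right]
    simp
  rw [h1, EuclideanSpace.norm_eq]
  congr 1
  exact Finset.sum_congr rfl fun j _ => by rw [h2 j]

theorem s3 : T_S3 := by
  intro n w y s hw
  have hm : ContDiff ℝ 1 (fun x : V n => ((x, y, s + 2 * inner ℝ x y) : H n)) := by
    have h0 : ContDiff ℝ 1 (fun x : V n => inner ℝ x y) := contDiff_id.inner ℝ contDiff_const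
    exact contDiff_id.prodMk (contDiff_const.prodMk (contDiff_const.add (contDiff_const.mul h0)))
  refine ⟨hw.comp hm, fun x => ?_⟩
  have hd : HasFDerivAt (fun x : V n => ((x, y, s + 2 * inner ℝ x y) : H n))
      ((ContinuousLinearMap.id ℝ (V n)).prod ((0 : V n →L[ℝ] V n).prod
        ((2 : ℝ) • (innerSL ℝ y)))) x := by
    refine (hasFDerivAt_id x).prodMk ((hasFDerivAt_const y x).prodMk ?_)
    have h1 : HasFDerivAt (fun x : V n => inner ℝ y x) (innerSL ℝ y) x :=
      (innerSL ℝ y).hasFDerivAt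
    have h2 := (h1.const_mul (2 : ℝ)).const_add s
    refine h2.congr_of_eventuallyEq (Filter.Eventually.of_forall fun z => ?_)
    show s + 2 * inner ℝ z y = s + 2 * inner ℝ y z
    rw [real_inner_comm]
  have hwd : DifferentiableAt ℝ w (x, y, s + 2 * inner ℝ x y) :=
    (hw.differentiable one_ne_zero) _
  have hc := hwd.hasFDerivAt.comp x hd
  have hf : fderiv ℝ (fun x : V n => w (x, y, s + 2 * inner ℝ x y)) x = _ := hc.fderiv
  rw [norm_clm, hf]
  unfold gX
  congr 1
  refine Finset.sum_congr rfl fun j _ => ?_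
  congr 2
  unfold X
  rw [ContinuousLinearMap.comp_apply]
  congr 1
  refine Prod.ext rfl (Prod.ext rfl ?_)
  show (2 : ℝ) * inner ℝ y (EuclideanSpace.single j (1 : ℝ)) = 2 * y j
  rw [EuclideanSpace.inner_single_right]
  simp

end Pool.Agent.H69.HS.S3
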